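import Pool.Agent.Helper49.LC.St

/-!
Project LC (MP_58b586_gt), module IP2: the infinite product for `q < 1`.
-/

set_option autoImplicit false

open scoped ContDiff

open Filter Topology

namespace Pool.Agent.Helper94.LC

open Pool.Agent.Helper14.LK Pool.Agent.Helper49.LC

/-- the centre of `VV k` -/
private noncomputable def cc {n : ℕ} (a : EE n) (q : ℝ) (k : ℕ) : WW n := (ce a q k + (q ^ k / 2) • a, 0)

private theorem tm_cc {n : ℕ} (a : EE n) (q : ℝ) (k : ℕ) :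
    tm (ce a q k) (q ^ k) (((1 / 2 : ℝ) • a, 0) : WW n) = cc a q k := by
  unfold tm cc
  rw [Prod.smul_mk, smul_smul, Prod.mk_add_mk, smul_zero, add_zero]
  congr 2
  congr 1
  ring

private theorem mem_VV {n : ℕ} (a : EE n) (q R : ℝ) (k : ℕ) (w : WW n) :
    w ∈ VV a q R k ↔ ‖w - cc a q k‖ ≤ q ^ k * (‖a‖ / 2 + 2 * R) := Iff.rfl

private theorem geo (q : ℝ) (hq1 : q < 1) (k : ℕ) :
    (1 - q)⁻¹ - ∑ i ∈ Finset.range k, q ^ i = q ^ k * (1 - q)⁻¹ := by
  have h : (1 - q) ≠ 0 := by linarith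
  induction k with
  | zero => simp
  | succ k ih =>
    rw [Finset.sum_range_succ, ← sub_sub, ih, pow_succ]
    field_simp
    ring

private theorem dist_cc {n : ℕ} (a : EE n) (q : ℝ) (hq : 0 < q) (hq1 : q < 1) (k : ℕ) :
    ‖cc a q k - (((1 - q)⁻¹ • a, 0) : WW n)‖ ≤ q ^ k * ((1 - q)⁻¹ * ‖a‖) := by
  have e1 : cc a q k - (((1 - q)⁻¹ • a, 0) : WW n) =
      (-(q ^ k * ((1 - q)⁻¹ - 1 / 2)) • a, 0) := by
    unfold cc ce
    rw [Prod.mk_sub_mk, sub_zero, ← add_smul, ← sub_smul]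
    congr 2
    have := geo q hq1 k
    linarith
  have hi : 1 ≤ (1 - q)⁻¹ := by
    rw [one_le_inv₀ (by linarith)]
    linarith
  have hqk : 0 < q ^ k := pow_pos hq k
  rw [e1, Prod.norm_mk, norm_zero, norm_smul, Real.norm_eq_abs, abs_neg,
    abs_of_nonneg (mul_nonneg hqk.le (by linarith)), max_eq_left (by
      apply mul_nonneg (mul_nonneg hqk.le (by linarith)) (norm_nonneg _))]
  have h2 : q ^ k * ((1 - q)⁻¹ - 1 / 2) * ‖a‖ = q ^ k * ((1 - q)⁻¹ * ‖a‖) - q ^ k * ‖a‖ / 2 := by ring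
  have h3 : 0 ≤ q ^ k * ‖a‖ / 2 := by positivity
  linarith

theorem hIP2 (hSWG : StSWG) (hPRD : StPRD) (hGRP : StGRP) : StIP2 := by
  intro n a q R e f f' hR hq hq1 h4 hHB
  obtain ⟨s1, -, -, -, -, -, -, -, s9, s10, s11, -⟩ := hSWG n a q R hR hq hq1.le h4
  obtain ⟨-, -, -, -, g5, g6, -⟩ := hGRP
  set p : WW n := ((1 - q)⁻¹ • a, 0) with hp
  -- the conjugates
  have hk : ∀ k, HB (cc a q k) (q ^ k * (‖a‖ / 2 + 2 * R))
      (fun w => Tk a q k (f (Ti a q k w))) (fun w => Tk a q k (f' (Ti a q k w))) := by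
    intro k
    have := g5 n (((1 / 2 : ℝ) • a, 0) : WW n) (‖a‖ / 2 + 2 * R) f f' (ce a q k) (q ^ k)
      (pow_pos hq k) hHB
    rw [tm_cc] at this
    exact this
  have hk6 := fun k => g6 n _ _ _ _ (hk k)
  obtain ⟨F, G, hGF, hFG, hin, hout, hsm⟩ := hPRD n
    (fun j w => Tk a q (2 * j + e) (f (Ti a q (2 * j + e) w)))
    (fun j w => Tk a q (2 * j + e) (f' (Ti a q (2 * j + e) w)))
    (fun j => VV a q R (2 * j + e)) (fun j => (hk6 (2 * j + e)).1) (fun j => s9 _)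
    (by
      intro i j hij
      rcases Nat.lt_or_ge i j with h | h
      · exact s1 _ _ (by omega)
      · exact (s1 _ _ (by omega)).symm)
    (by
      intro j w hw
      rw [mem_VV, not_le] at hw
      exact ((hk6 (2 * j + e)).2.1 w hw.le).1)
  -- p is in no ball
  have hpV : ∀ k, p ∉ VV a q R k := by
    intro k hpk
    have h1 := s10 hq1 k p hpk
    rw [sub_self, norm_zero] at h1
    have : 0 < q ^ k * (2 * R) := by
      have := pow_pos hq k
      positivity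
    linarith
  have hFp : F p = p ∧ G p = p := hout p (fun j => hpV _)
  -- distance estimates
  set C0 : ℝ := (‖a‖ / 2 + 2 * R) / R with hC0
  have hC0' : 0 ≤ C0 := by rw [hC0]; positivity
  have near : ∀ w : WW n, ‖F w - p‖ ≤ (1 + C0) * ‖w - p‖ ∧ ‖G w - p‖ ≤ (1 + C0) * ‖w - p‖ := by
    intro w
    by_cases hw : ∃ j, w ∈ VV a q R (2 * j + e)
    · obtain ⟨j, hj⟩ := hw
      obtain ⟨hF1, -, hG1, -⟩ := hin j w hj
      have h10 := s10 hq1 _ w hj
      rw [mem_VV] at hj hF1 hG1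
      set r := q ^ (2 * j + e) with hr
      have hA : 0 ≤ ‖a‖ / 2 + 2 * R := by positivity
      have h5 : 2 * (r * (‖a‖ / 2 + 2 * R)) ≤ C0 * ‖w - p‖ := by
        have h6 : r * (2 * R) * C0 ≤ ‖w - p‖ * C0 := mul_le_mul_of_nonneg_right h10 hC0'
        have h7 : r * (2 * R) * C0 = 2 * (r * (‖a‖ / 2 + 2 * R)) := by
          rw [hC0]; field_simp
        linarith
      have key : ∀ z : WW n, ‖z - cc a q (2 * j + e)‖ ≤ r * (‖a‖ / 2 + 2 * R) →
          ‖z - p‖ ≤ (1 + C0) * ‖w - p‖ := by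
        intro z hz
        have h8 : z - p = (z - cc a q (2 * j + e)) - (w - cc a q (2 * j + e)) + (w - p) := by abel
        calc ‖z - p‖ = ‖(z - cc a q (2 * j + e)) - (w - cc a q (2 * j + e)) + (w - p)‖ := by rw [← h8]
          _ ≤ ‖(z - cc a q (2 * j + e)) - (w - cc a q (2 * j + e))‖ + ‖w - p‖ := norm_add_le _ _
          _ ≤ ‖z - cc a q (2 * j + e)‖ + ‖w - cc a q (2 * j + e)‖ + ‖w - p‖ := by
              gcongr
              exact norm_sub_le _ _
          _ ≤ (1 + C0) * ‖w - p‖ := by linarith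
      exact ⟨key _ hF1, key _ hG1⟩
    · push Not at hw
      obtain ⟨h1, h2⟩ := hout w hw
      rw [h1, h2]
      have : 0 ≤ C0 * ‖w - p‖ := by positivity
      constructor <;> linarith
  -- smoothness off p
  have smooth : ∀ w, w ≠ p → ContDiffAt ℝ ∞ F w ∧ ContDiffAt ℝ ∞ G w ∧
      (∀ b c, om (fderiv ℝ F w b) (fderiv ℝ F w c) = om b c) ∧
      ∀ b c, om (fderiv ℝ G w b) (fderiv ℝ G w c) = om b c := by
    intro w hw
    have hwp : 0 < ‖w - p‖ := norm_pos_iff.mpr (sub_ne_zero.mpr hw)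
    refine hsm w {w' | ‖w - p‖ / 2 < ‖w' - p‖} (isOpen_lt continuous_const (by fun_prop)) ?_ ?_
    · show ‖w - p‖ / 2 < ‖w - p‖
      linarith
    · set C : ℝ := (‖a‖ / 2 + 2 * R) + (1 - q)⁻¹ * ‖a‖ with hC
      have hlim : Tendsto (fun k : ℕ => q ^ k * C) atTop (𝓝 (0 * C)) :=
        (tendsto_pow_atTop_nhds_zero_of_lt_one hq.le hq1).mul_const C
      rw [zero_mul] at hlim
      have hev : ∀ᶠ k : ℕ in atTop, q ^ k * C < ‖w - p‖ / 2 :=
        hlim.eventually (gt_mem_nhds (by linarith))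
      obtain ⟨N, hN⟩ := eventually_atTop.mp hev
      refine ⟨N, fun j hj => ?_⟩
      rw [Set.disjoint_left]
      intro w' h1 h2
      have h1' : ‖w - p‖ / 2 < ‖w' - p‖ := h1
      rw [mem_VV] at h2
      have h3 := hN (2 * j + e) (by omega)
      have h4 := dist_cc a q hq hq1 (2 * j + e)
      have h5 : ‖w' - p‖ ≤ ‖w' - cc a q (2 * j + e)‖ + ‖cc a q (2 * j + e) - p‖ :=
        norm_sub_le_norm_sub_add_norm_sub _ _ _
      rw [← hp] at h4
      have h6 : q ^ (2 * j + e) * C = q ^ (2 * j + e) * (‖a‖ / 2 + 2 * R) +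
          q ^ (2 * j + e) * ((1 - q)⁻¹ * ‖a‖) := by rw [hC]; ring
      linarith
  have contp : ∀ H : WW n → WW n, H p = p → (∀ w, ‖H w - p‖ ≤ (1 + C0) * ‖w - p‖) → ContinuousAt H p := by
    intro H hH hb
    unfold ContinuousAt
    rw [hH, tendsto_iff_norm_sub_tendsto_zero]
    refine squeeze_zero (fun w => norm_nonneg _) hb ?_
    have h1 : Tendsto (fun w : WW n => (1 + C0) * ‖w - p‖) (𝓝 p) (𝓝 ((1 + C0) * ‖p - p‖)) := by
      apply Continuous.tendsto
      fun_prop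
    rw [sub_self, norm_zero, mul_zero] at h1
    exact h1
  refine ⟨F, G, ⟨hGF, hFG, fun j w hw => ?_, fun j w hw => ?_, hout⟩, ?_, ?_, hFp.1, ?_, smooth⟩
  · obtain ⟨h1, h2, -, -⟩ := hin j w hw
    exact ⟨h1, h2⟩
  · obtain ⟨-, -, h1, h2⟩ := hin j w hw
    exact ⟨h1, h2⟩
  · rw [continuous_iff_continuousAt]
    intro w
    by_cases hw : w = p
    · rw [hw]
      exact contp F hFp.1 (fun w => (near w).1)
    · exact (smooth w hw).1.continuousAt
  · rw [continuous_iff_continuousAt]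
    intro w
    by_cases hw : w = p
    · rw [hw]
      exact contp G hFp.2 (fun w => (near w).2)
    · exact (smooth w hw).2.1.continuousAt
  · intro w hw
    apply hout w
    intro j hj
    have := s11 hq1 _ w hj
    linarith

end Pool.Agent.Helper94.LC
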